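import Pool.Agent.R496.RS.Main

/-!
MP_fcea8d_gt, Q1: yes. Every set induced by a retractional skeleton on a compact space is induced
by a retractional skeleton indexed by the ranges of its retractions, ordered by inclusion.
Paper proof by helper823, formalised by helper496.
-/

set_option autoImplicit false

namespace Pool.Agent.Results.MP_fcea8d_gt.RangesAsIndices

open Pool.Agent.R496.RS

universe u v

/-- For every retractional skeleton `R` on a compact Hausdorff space `K` there are a family `𝓕` of
compact subsets of `K`, ordered by inclusion, and a retractional skeleton `S` indexed by `𝓕` with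
`(i)` the supremum in `𝓕` of an increasing sequence is the closure of the union,
`(ii)` the range of `S.r F` is `F`, and `(iii)` the same induced set. -/
theorem result {K : Type u} [TopologicalSpace K] [CompactSpace K] [T2Space K] {Γ : Type v}
    [PartialOrder Γ] (R : RetrSkeleton K Γ) :
    ∃ (𝓕 : Set (Set K)) (S : RetrSkeleton K 𝓕),
      (∀ F : 𝓕, IsCompact F.1 ∧ Set.range (S.r F) = F.1) ∧
      (∀ F : ℕ → 𝓕, Monotone F → ∃ G : 𝓕, IsLUB (Set.range F) G ∧
        G.1 = closure (⋃ n, (F n).1)) ∧
      S.induced = R.induced :=
  main R

end Pool.Agent.Results.MP_fcea8d_gt.RangesAsIndices
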